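import Pool.Agent.Helper26.Er.Gw
import Pool.Agent.Helper37.BC.Cont
import Mathlib.MeasureTheory.Measure.Lebesgue.VolumeOfBalls

/-!
# ER packages X1 and X2: the Gaussian weight (MP_6b977f_mp)
-/

set_option autoImplicit false
open MeasureTheory Filter Topology ProbabilityTheory
open scoped ContDiff ENNReal

namespace Pool.Agent.Helper43.Er

open Pool.Agent.N661.BR (MW IsStationary shift meas_eval meas_shift)
open Pool.Agent.Helper37.BC
open Pool.Agent.Helper26.Er

/-- X1 -/
theorem gw_int : Integrable gw ∧ ∫ z, gw z = 1 := by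
  have h1 : ∫ z : ℂ, Real.exp (-‖z‖ ^ 2) = Real.pi := by
    have h := Complex.integral_exp_neg_rpow (p := 2) (by norm_num)
    have e : (2 : ℝ) / 2 + 1 = 1 + 1 := by norm_num
    rw [e, Real.Gamma_add_one one_ne_zero, Real.Gamma_one, mul_one, mul_one] at h
    rw [← h]
    congr 1
    funext z
    rw [← Real.rpow_natCast]
    norm_num
  have h2 : Integrable (fun z : ℂ => Real.exp (-‖z‖ ^ 2)) := by
    by_contra hne
    rw [integral_undef hne] at h1
    exact Real.pi_ne_zero h1.symm
  constructor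
  · exact h2.const_mul _
  · unfold gw
    rw [integral_const_mul, h1]
    field_simp

theorem gw_nonneg (z : ℂ) : 0 ≤ gw z := by
  unfold gw
  have := Real.pi_pos
  positivity

variable {μ : Measure MW} [IsProbabilityMeasure μ]

/-- X2 -/
theorem sq_prod_int (hs : IsStationary μ) (h2 : Integrable (fun f : MW => f 0 ^ 2) μ) (t : ℝ) :
    Integrable (fun p : MW × ℂ => gw p.2 * p.1 ((t : ℂ) * p.2) ^ 2) (μ.prod volume) := by
  have hgm : Measurable gw := by
    unfold gw
    fun_prop
  have hm : Measurable (fun p : MW × ℂ => gw p.2 * p.1 ((t : ℂ) * p.2) ^ 2) := by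
    have h3 : Measurable (fun p : MW × ℂ => p.1 ((t : ℂ) * p.2)) :=
      meas_ev.comp ((measurable_snd.const_mul (t : ℂ)).prodMk measurable_fst)
    exact (hgm.comp measurable_snd).mul (h3.pow_const 2)
  have hz : ∀ z : ℂ, Integrable (fun f : MW => f z ^ 2) μ := by
    intro z
    have h3 := (mp_shift hs z).integrable_comp_of_integrable h2
    refine h3.congr (Eventually.of_forall fun f => ?_)
    change (shift z f) 0 ^ 2 = f z ^ 2
    rw [shift_apply, zero_add]
  have hz' : ∀ z : ℂ, ∫ f : MW, f z ^ 2 ∂μ = ∫ f : MW, f 0 ^ 2 ∂μ := by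
    intro z
    rw [← int_shift hs (F := fun f : MW => f 0 ^ 2) ((meas_eval 0).pow_const 2) z]
    refine integral_congr_ae (Eventually.of_forall fun f => ?_)
    change f z ^ 2 = (shift z f) 0 ^ 2
    rw [shift_apply, zero_add]
  rw [integrable_prod_iff' hm.aestronglyMeasurable]
  refine ⟨Eventually.of_forall fun z => (hz ((t : ℂ) * z)).const_mul (gw z), ?_⟩
  have e : (fun z : ℂ => ∫ f : MW, ‖gw z * f ((t : ℂ) * z) ^ 2‖ ∂μ) =
      fun z => gw z * ∫ f : MW, f 0 ^ 2 ∂μ := by
    funext z
    rw [← hz' ((t : ℂ) * z), ← integral_const_mul]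
    refine integral_congr_ae (Eventually.of_forall fun f => ?_)
    change ‖gw z * f ((t : ℂ) * z) ^ 2‖ = gw z * f ((t : ℂ) * z) ^ 2
    exact Real.norm_of_nonneg (mul_nonneg (gw_nonneg z) (sq_nonneg _))
  exact e ▸ gw_int.1.mul_const _

end Pool.Agent.Helper43.Er
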